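import Pool.Agent.Helper94.YF.St

/-! # Project YF, module PF: the case of a level divisible by four, first part -/

set_option autoImplicit false

namespace Pool.Agent.Helper67.YF

open Pool.Agent.Helper94.YF
open Matrix ComplexConjugate

/-! ## Two by two matrices -/

private theorem s2_inv {L : ℕ} (b : ZMod L) : (s2 b)⁻¹ = U b * Lo (-b) * U b := by
  rw [inv_eq_iff_mul_eq_one]
  unfold s2 U Lo
  ext i j
  fin_cases i <;> fin_cases j <;> simp [Matrix.mul_apply, Fin.sum_univ_two] <;> ring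

private theorem Lo_neg {L : ℕ} (z : ZMod L) : Lo (-z) = (Lo z)⁻¹ := by
  symm
  rw [inv_eq_iff_mul_eq_one]
  unfold Lo
  ext i j
  fin_cases i <;> fin_cases j <;> simp [Matrix.mul_apply, Fin.sum_univ_two]

private theorem Lo_zero {L : ℕ} : Lo (0 : ZMod L) = 1 := by
  unfold Lo
  ext i j
  fin_cases i <;> fin_cases j <;> simp

private theorem Lo_Sm {L : ℕ} (z : ZMod L) : Lo (-z) * Sm = Sm * U z := by
  unfold Lo Sm U
  ext i j
  fin_cases i <;> fin_cases j <;> simp [Matrix.mul_apply, Fin.sum_univ_two]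

private theorem conj_U {L : ℕ} (b z : ZMod L) (hb : b * b = b) (hz : z * b = z) :
    (s2 b)⁻¹ * (U z * s2 b) = Lo (-z) := by
  rw [s2_inv]
  unfold s2 U Lo
  ext i j
  fin_cases i <;> fin_cases j <;> simp [Matrix.mul_apply, Fin.sum_univ_two] <;>
    simp only [hb, hz]
  · linear_combination (2 - b) * hb - hz
  · linear_combination (b - 1) * hz
  · linear_combination (-1 : ZMod L) * hz
  · linear_combination (2 - b + z) * hb

private theorem col00 {L : ℕ} (b : ZMod L) (hb : b * b = b) :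
    ((s2 b)⁻¹ * Lo b : SL L) 0 0 = 1 := by
  rw [s2_inv]
  unfold U Lo
  simp [Matrix.mul_apply, Fin.sum_univ_two]
  simp only [hb]
  linear_combination (1 - b) * hb

private theorem col10 {L : ℕ} (b : ZMod L) (hb : b * b = b) :
    ((s2 b)⁻¹ * Lo b : SL L) 1 0 = -b := by
  rw [s2_inv]
  unfold U Lo
  simp [Matrix.mul_apply, Fin.sum_univ_two]
  simp only [hb]
  linear_combination (-1 : ZMod L) * hb

private theorem Lo00 {L : ℕ} (z : ZMod L) : (Lo z : SL L) 0 0 = 1 := by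
  unfold Lo
  simp

private theorem Lo10 {L : ℕ} (z : ZMod L) : (Lo z : SL L) 1 0 = z := by
  unfold Lo
  simp

private theorem conj_half (m : ℤ) : conj ((m : ℂ) / 2) = (m : ℂ) / 2 := by
  have h : ((m : ℂ) / 2) = (((m : ℝ) / 2 : ℝ) : ℂ) := by push_cast; rfl
  rw [h, Complex.conj_ofReal]

/-! ## The facts used -/

section

variable {I : Type} [Fintype I] [DecidableEq I] (Z : CentreRep I)

private theorem rho_inv (g : SL Z.L) : Z.rho g⁻¹ = (Z.rho g)ᴴ := by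
  have h1 : Z.rho g * Z.rho g⁻¹ = 1 := by
    rw [← map_mul, mul_inv_cancel, map_one]
  calc Z.rho g⁻¹ = ((Z.rho g)ᴴ * Z.rho g) * Z.rho g⁻¹ := by rw [Z.unitary, one_mul]
    _ = (Z.rho g)ᴴ := by rw [mul_assoc, h1, mul_one]

/-- `tw (k z) = (tw z)^k` -/
private theorem tw_pow (F3 : ∀ x y i, Z.tw (x + y) i = Z.tw x i * Z.tw y i)
    (F4 : ∀ i, Z.tw 0 i = 1) (z : ZMod Z.L) (i : I) (k : ℕ) :
    Z.tw ((k : ZMod Z.L) * z) i = Z.tw z i ^ k := by
  induction k with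
  | zero => simp [F4]
  | succ k ih =>
    rw [Nat.cast_succ, add_mul, one_mul, F3, ih, pow_succ]

/-- step (1) of the proof -/
private theorem step1
    (F6 : ∀ z, Z.tw z Z.o = 1)
    (F11 : ∀ (g g' : SL Z.L) (c : (ZMod Z.L)ˣ), g' 0 0 = (c : ZMod Z.L) * g 0 0 →
      g' 1 0 = (c : ZMod Z.L) * g 1 0 → ∀ i, Z.rho g' i Z.o = Z.rho g i Z.o)
    (b : ZMod Z.L) (hb : b * b = b) (y : I → ℤ)
    (hyu : ∀ i, (y i : ℂ) = 2 * Z.rho (s2 b) i Z.o)
    (hal : ∀ i, 2 * Z.rho (Lo b) i Z.o = Z.tw b i * y i) :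
    ∑ k, ((y k ^ 2 : ℤ) : ℂ) * Z.tw b k = ((2 * y Z.o : ℤ) : ℂ) := by
  have e1 : Z.rho ((s2 b)⁻¹ * Lo b) Z.o Z.o =
      ∑ k, conj (Z.rho (s2 b) k Z.o) * Z.rho (Lo b) k Z.o := by
    rw [map_mul, rho_inv, Matrix.mul_apply]
    rfl
  have e2 : Z.rho ((s2 b)⁻¹ * Lo b) Z.o Z.o = Z.rho (Lo (-b)) Z.o Z.o := by
    apply F11 (Lo (-b)) ((s2 b)⁻¹ * Lo b) 1
    · rw [col00 b hb, Lo00]; simp
    · rw [col10 b hb, Lo10]; simp
  have e3 : Z.rho (Lo (-b)) Z.o Z.o = conj (Z.rho (Lo b) Z.o Z.o) := by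
    rw [Lo_neg, rho_inv]
    rfl
  have hu : ∀ i, Z.rho (s2 b) i Z.o = (y i : ℂ) / 2 := fun i => by
    rw [hyu i]; ring
  have hl : ∀ i, Z.rho (Lo b) i Z.o = Z.tw b i * y i / 2 := fun i => by
    rw [← hal i]; ring
  have e4 : conj (Z.rho (Lo b) Z.o Z.o) = (y Z.o : ℂ) / 2 := by
    rw [hl, F6, one_mul, conj_half]
  have e5 : ∑ k, conj (Z.rho (s2 b) k Z.o) * Z.rho (Lo b) k Z.o =
      (∑ k, ((y k ^ 2 : ℤ) : ℂ) * Z.tw b k) / 4 := by
    rw [Finset.sum_div]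
    refine Finset.sum_congr rfl fun k _ => ?_
    rw [hu, hl, conj_half]
    push_cast
    ring
  have e6 : (∑ k, ((y k ^ 2 : ℤ) : ℂ) * Z.tw b k) / 4 = (y Z.o : ℂ) / 2 := by
    rw [← e5, ← e1, e2, e3, e4]
  push_cast at e6 ⊢
  linear_combination 4 * e6

/-- step (2) of the proof -/
private theorem step2
    (F1 : ∀ z, Z.rho (U z) = Matrix.diagonal (Z.tw z))
    (F3 : ∀ x y i, Z.tw (x + y) i = Z.tw x i * Z.tw y i)
    (F4 : ∀ i, Z.tw 0 i = 1)
    (F8 : ∀ z i j, Z.rho (Lo z) i j = ∑ l, (Z.N i (Z.st j) l : ℂ) * Z.rho (Lo z) l Z.o)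
    (a : ℕ) (b : ZMod Z.L) (y : I → ℤ) (ha : 1 ≤ a) (hI : Idem Z.L (2 ^ a) b)
    (hyu : ∀ i, (y i : ℂ) = 2 * Z.rho (s2 b) i Z.o)
    (hP : ∀ i, Z.tw b i ^ (2 ^ a) = 1) :
    ∃ k, y k ≠ 0 ∧ Z.tw b k ^ (2 ^ (a - 1)) = -1 := by
  by_contra hcon
  push Not at hcon
  obtain ⟨hb, hPb, -, L', hL, hodd, hL'⟩ := hI
  set h : ℕ := 2 ^ (a - 1) with hh
  have h2h : 2 ^ a = 2 * h := by
    rw [hh, ← pow_succ']
    congr 1
    omega
  have hhpos : 0 < h := by positivity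
  set z : ZMod Z.L := (h : ZMod Z.L) * b with hz
  have hzb : z * b = z := by rw [hz, mul_assoc, hb]
  have htw : ∀ k, y k ≠ 0 → Z.tw z k = 1 := by
    intro k hk
    rw [hz, tw_pow Z F3 F4]
    have h1 : (Z.tw b k ^ h) ^ 2 = 1 := by
      rw [← pow_mul, mul_comm, ← h2h, hP]
    rw [sq] at h1
    rcases mul_self_eq_one_iff.mp h1 with h2 | h2
    · exact h2
    · exact absurd h2 (hcon k hk)
  have hcol : ∀ i, Z.rho (U z * s2 b) i Z.o = Z.rho (s2 b) i Z.o := by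
    intro i
    rw [map_mul, F1, Matrix.diagonal_mul]
    by_cases hy : y i = 0
    · have h1 : Z.rho (s2 b) i Z.o = 0 := by
        have h2 := hyu i
        rw [hy] at h2
        simpa using h2.symm
      rw [h1, mul_zero]
    · rw [htw i hy, one_mul]
  have hLo : ∀ i, Z.rho (Lo (-z)) i Z.o = if i = Z.o then 1 else 0 := by
    intro i
    rw [← conj_U b z hb hzb, map_mul, Matrix.mul_apply]
    simp_rw [hcol]
    rw [← Matrix.mul_apply, ← map_mul, inv_mul_cancel, map_one, Matrix.one_apply]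
  have h0 : ∀ i, Z.rho (Lo 0) i Z.o = if i = Z.o then 1 else 0 := by
    intro i
    rw [Lo_zero, map_one, Matrix.one_apply]
  have hone : Z.rho (Lo (-z)) = 1 := by
    ext i j
    rw [F8]
    have h1 : ∀ l, Z.rho (Lo (-z)) l Z.o = Z.rho (Lo 0) l Z.o := by
      intro l
      rw [hLo, h0]
    simp_rw [h1]
    rw [← F8, Lo_zero, map_one]
  have hU : Z.rho (U z) = 1 := by
    have h1 : Z.rho Sm = Z.rho Sm * Z.rho (U z) := by
      rw [← map_mul, ← Lo_Sm, map_mul, hone, one_mul]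
    have h2 : Z.rho Sm⁻¹ * Z.rho Sm = 1 := by
      rw [← map_mul, inv_mul_cancel, map_one]
    calc Z.rho (U z) = (Z.rho Sm⁻¹ * Z.rho Sm) * Z.rho (U z) := by rw [h2, one_mul]
      _ = Z.rho Sm⁻¹ * Z.rho Sm := by rw [mul_assoc, ← h1]
      _ = 1 := h2
  have hth : ∀ i, Z.th i ^ z.val = 1 := by
    intro i
    have h1 := F1 z
    rw [hU] at h1
    have h2 := congrFun (congrFun h1 i) i
    rw [Matrix.one_apply_eq, Matrix.diagonal_apply_eq] at h2
    exact h2.symm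
  have hdvd := Z.th_order z.val hth
  have : NeZero Z.L := ⟨Z.L_pos.ne'⟩
  have hval : z.val = 0 := Nat.eq_zero_of_dvd_of_lt hdvd (ZMod.val_lt z)
  have hz0 : z = 0 := (ZMod.val_eq_zero z).mp hval
  rw [hz] at hz0
  have hfin : ((L' * h : ℕ) : ZMod Z.L) = 0 := by
    push_cast
    linear_combination (h : ZMod Z.L) * hL' + (L' : ZMod Z.L) * hz0
  rw [ZMod.natCast_eq_zero_iff] at hfin
  have hLpos : 0 < L' := hodd.pos
  have h3 := Nat.le_of_dvd (Nat.mul_pos hLpos hhpos) hfin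
  rw [hL, h2h] at h3
  nlinarith [Nat.mul_pos hLpos hhpos]

end

/-! ## The combinatorial part -/

section

variable {I : Type} [Fintype I] [DecidableEq I]

private theorem sum4 {M : Type} [AddCommMonoid M] (f : I → M) (k1 k2 p q : I)
    (h12 : k1 ≠ k2) (h1p : k1 ≠ p) (h1q : k1 ≠ q) (h2p : k2 ≠ p) (h2q : k2 ≠ q) (hpq : p ≠ q)
    (h : ∀ i, i ≠ k1 → i ≠ k2 → i ≠ p → i ≠ q → f i = 0) :
    ∑ i, f i = f k1 + (f k2 + (f p + f q)) := by
  rw [← Finset.sum_subset (Finset.subset_univ ({k1, k2, p, q} : Finset I))]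
  · rw [Finset.sum_insert, Finset.sum_insert, Finset.sum_insert, Finset.sum_singleton]
    · simpa using hpq
    · simp [h2p, h2q]
    · simp [h12, h1p, h1q]
  · intro i _ hi
    simp only [Finset.mem_insert, Finset.mem_singleton, not_or] at hi
    exact h i hi.1 hi.2.1 hi.2.2.1 hi.2.2.2

private theorem sq_ge_one {m : ℤ} (h : m ≠ 0) : 1 ≤ m ^ 2 := by
  have : 0 < m ^ 2 := by positivity
  omega

/-- steps (3), (4) of the proof -/
private theorem comb (y : I → ℤ) (t : I → ℂ) (hsq : ∑ i, y i ^ 2 = 4) (k1 : I)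
    (hk1 : y k1 ≠ 0) (hx2 : t k1 ^ 2 ≠ 1) (ht0 : ∀ i, t i ≠ 0)
    (R2 : ∀ x : ℂ, x ≠ 1 → x ≠ -1 →
      ∑ i, (if t i = x then y i ^ 2 else 0) = ∑ i, (if t i = -x then y i ^ 2 else 0))
    (R3 : ∃ p, y p ≠ 0 ∧ (t p = 1 ∨ t p = -1)) :
    ∃ k2 p q, k1 ≠ k2 ∧ k1 ≠ p ∧ k1 ≠ q ∧ k2 ≠ p ∧ k2 ≠ q ∧ p ≠ q ∧
      t k2 = -t k1 ∧ (t p = 1 ∨ t p = -1) ∧ (t q = 1 ∨ t q = -1) ∧
      y k1 ^ 2 = 1 ∧ y k2 ^ 2 = 1 ∧ y p ^ 2 = 1 ∧ y q ^ 2 = 1 ∧
      ∀ i, i ≠ k1 → i ≠ k2 → i ≠ p → i ≠ q → y i = 0 := by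
  have hne1 : t k1 ≠ 1 := fun h => hx2 (by rw [h]; norm_num)
  have hne2 : t k1 ≠ -1 := fun h => hx2 (by rw [h]; norm_num)
  obtain ⟨k2, hk2, hyk2⟩ : ∃ k2, t k2 = -t k1 ∧ y k2 ≠ 0 := by
    by_contra hcon
    push Not at hcon
    have h1 := R2 (t k1) hne1 hne2
    have h2 : ∑ i, (if t i = -t k1 then y i ^ 2 else 0) = 0 := by
      refine Finset.sum_eq_zero fun i _ => ?_
      split_ifs with hi
      · rw [hcon i hi]; norm_num
      · rfl
    have h3 : y k1 ^ 2 ≤ ∑ i, (if t i = t k1 then y i ^ 2 else 0) := by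
      have h4 := Finset.single_le_sum (f := fun i => if t i = t k1 then y i ^ 2 else 0)
        (fun i _ => by
          show (0 : ℤ) ≤ if t i = t k1 then y i ^ 2 else 0
          split_ifs
          · positivity
          · exact le_refl 0) (Finset.mem_univ k1)
      simpa using h4
    have h4 := sq_ge_one hk1
    omega
  obtain ⟨p, hyp, htp⟩ := R3
  have htp2 : t p ^ 2 = 1 := by
    rcases htp with h | h <;> rw [h] <;> norm_num
  have htk2 : t k2 ^ 2 ≠ 1 := by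
    rw [hk2, neg_sq]; exact hx2
  have h12 : k1 ≠ k2 := by
    intro h
    rw [← h] at hk2
    have h1 : (2 : ℂ) * t k1 = 0 := by linear_combination hk2
    rcases mul_eq_zero.mp h1 with h2 | h2
    · norm_num at h2
    · exact ht0 k1 h2
  have h1p : k1 ≠ p := by
    intro h
    rw [h] at hx2
    exact hx2 htp2
  have h2p : k2 ≠ p := by
    intro h
    rw [h] at htk2
    exact htk2 htp2
  have hs : y k1 ^ 2 + (y k2 ^ 2 + (y p ^ 2 +
      ∑ i ∈ ((Finset.univ.erase k1).erase k2).erase p, y i ^ 2)) = 4 := by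
    rw [Finset.add_sum_erase ((Finset.univ.erase k1).erase k2) (fun i => y i ^ 2)
        (by simp [h1p.symm, h2p.symm]),
      Finset.add_sum_erase (Finset.univ.erase k1) (fun i => y i ^ 2) (by simp [h12.symm]),
      Finset.add_sum_erase Finset.univ (fun i => y i ^ 2) (Finset.mem_univ k1), hsq]
  have hnn : ∀ i ∈ ((Finset.univ.erase k1).erase k2).erase p, 0 ≤ y i ^ 2 :=
    fun i _ => by positivity
  have hs0 := Finset.sum_nonneg hnn
  have g1 := sq_ge_one hk1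
  have g2 := sq_ge_one hyk2
  have g3 := sq_ge_one hyp
  have hle : ∀ m : ℤ, m ≠ 0 → m ^ 2 ≤ 2 → m ^ 2 = 1 := by
    intro m h0 h1
    have h2 : m ≤ 1 := by nlinarith
    have h3 : -1 ≤ m := by nlinarith
    have h4 : m = 1 ∨ m = -1 := by omega
    rcases h4 with h | h <;> rw [h] <;> norm_num
  have e1 : y k1 ^ 2 = 1 := hle _ hk1 (by omega)
  have e2 : y k2 ^ 2 = 1 := hle _ hyk2 (by omega)
  have e3 : y p ^ 2 = 1 := hle _ hyp (by omega)
  have hs1 : ∑ i ∈ ((Finset.univ.erase k1).erase k2).erase p, y i ^ 2 = 1 := by omega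
  obtain ⟨q, hqm, hyq⟩ : ∃ q ∈ ((Finset.univ.erase k1).erase k2).erase p, y q ^ 2 ≠ 0 := by
    by_contra hcon
    push Not at hcon
    rw [Finset.sum_eq_zero hcon] at hs1
    omega
  have hyq0 : y q ≠ 0 := by
    intro h
    rw [h] at hyq
    norm_num at hyq
  have hs2 : y q ^ 2 + ∑ i ∈ (((Finset.univ.erase k1).erase k2).erase p).erase q, y i ^ 2 = 1 := by
    rw [Finset.add_sum_erase _ (fun i => y i ^ 2) hqm, hs1]
  have hnn2 : ∀ i ∈ (((Finset.univ.erase k1).erase k2).erase p).erase q, 0 ≤ y i ^ 2 :=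
    fun i _ => by positivity
  have hs3 := Finset.sum_nonneg hnn2
  have g4 := sq_ge_one hyq0
  have e4 : y q ^ 2 = 1 := by omega
  have hs4 : ∑ i ∈ (((Finset.univ.erase k1).erase k2).erase p).erase q, y i ^ 2 = 0 := by omega
  have hz : ∀ i, i ≠ k1 → i ≠ k2 → i ≠ p → i ≠ q → y i = 0 := by
    intro i hi1 hi2 hi3 hi4
    have h1 := (Finset.sum_eq_zero_iff_of_nonneg hnn2).mp hs4 i (by simp [hi1, hi2, hi3, hi4])
    exact pow_eq_zero_iff (two_ne_zero) |>.mp h1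
  simp only [Finset.mem_erase, Finset.mem_univ, and_true] at hqm
  obtain ⟨hqp, hq2, hq1⟩ := hqm
  refine ⟨k2, p, q, h12, h1p, Ne.symm hq1, h2p, Ne.symm hq2, Ne.symm hqp, hk2, htp, ?_,
    e1, e2, e3, e4, hz⟩
  by_contra hcon
  push Not at hcon
  obtain ⟨hc1, hc2⟩ := hcon
  have h1 := R2 (t q) hc1 hc2
  have hz1 : ∀ x : ℂ, ∀ i, i ≠ k1 → i ≠ k2 → i ≠ p → i ≠ q →
      (if t i = x then y i ^ 2 else 0) = 0 := by
    intro x i hi1 hi2 hi3 hi4
    rw [hz i hi1 hi2 hi3 hi4]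
    simp
  rw [sum4 _ k1 k2 p q h12 h1p (Ne.symm hq1) h2p (Ne.symm hq2) (Ne.symm hqp) (hz1 _),
    sum4 _ k1 k2 p q h12 h1p (Ne.symm hq1) h2p (Ne.symm hq2) (Ne.symm hqp) (hz1 _),
    e1, e2, e3, e4, hk2] at h1
  have c1 : t p ≠ t q := by
    intro h
    rcases htp with h2 | h2
    · exact hc1 (by rw [← h, h2])
    · exact hc2 (by rw [← h, h2])
  have c2 : t p ≠ -t q := by
    intro h
    have h3 : t q = -t p := by rw [h, neg_neg]
    rcases htp with h2 | h2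
    · exact hc2 (by rw [h3, h2])
    · exact hc1 (by rw [h3, h2, neg_neg])
  have c3 : t q ≠ -t q := by
    intro h
    have h1 : (2 : ℂ) * t q = 0 := by linear_combination h
    rcases mul_eq_zero.mp h1 with h2 | h2
    · norm_num at h2
    · exact ht0 q h2
  rw [if_neg c1, if_neg c2, if_pos rfl, if_neg c3] at h1
  have c4 : (-t k1 = t q) ↔ (t k1 = -t q) := by
    constructor
    · intro h; rw [← h, neg_neg]
    · intro h; rw [h, neg_neg]
  have c5 : (-t k1 = -t q) ↔ (t k1 = t q) := neg_inj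
  simp only [c4, c5] at h1
  omega

end

/-! ## The conclusion -/

section

variable {I : Type} [Fintype I] [DecidableEq I] (Z : CentreRep I)

/-- step (5) of the proof -/
private theorem case5
    (F3 : ∀ x y i, Z.tw (x + y) i = Z.tw x i * Z.tw y i)
    (F5 : ∀ i, Z.tw 1 i = Z.th i)
    (F6 : ∀ z, Z.tw z Z.o = 1)
    (D1 : ∀ i, Z.st (Z.st i) = i) (D2 : Z.st Z.o = Z.o) (D4 : ∀ i, Z.th (Z.st i) = Z.th i)
    (b : ZMod Z.L) (y : I → ℤ) (hY : YP Z b y) (k1 k2 p : I) (hpo : p ≠ Z.o)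
    (hz : ∀ i, i ≠ k1 → i ≠ k2 → i ≠ p → i ≠ Z.o → y i = 0)
    (hk1 : Z.tw b k1 ≠ 1) (hk2 : Z.tw b k2 ≠ 1) (htp : Z.tw b p = 1) (hyp : y p ≠ 0)
    (hdp : Z.d p = 1) : Goal Z := by
  refine ⟨p, hpo, hdp, ?_, ?_⟩
  · have h1 : Z.rho (Lo b) p Z.o ≠ 0 := by
      intro h
      have h2 := hY.al p
      rw [h, htp, mul_zero, one_mul] at h2
      exact hyp (by exact_mod_cast h2.symm)
    have h2 := hY.odd p Z.o h1
    rw [F6] at h2
    rw [← F5]
    have h3 : (1 : ZMod Z.L) = b + (1 - b) := by ring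
    rw [h3, F3, htp, h2, one_mul]
  · by_contra h
    have h1 : y (Z.st p) ≠ 0 := by rw [hY.dual]; exact hyp
    have h2 : Z.tw b (Z.st p) = 1 := by
      rw [← htp]
      unfold CentreRep.tw
      rw [D4]
    apply h1
    apply hz
    · intro h3; rw [h3] at h2; exact hk1 h2
    · intro h3; rw [h3] at h2; exact hk2 h2
    · exact h
    · intro h3
      apply hpo
      rw [← D1 p, h3, D2]

end

/-- YF MODULE PF -/
theorem hPF : StPF := by
  intro hF hD hR I _ _ Z a b y ha hI hY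
  obtain ⟨F1, -, F3, F4, F5, F6, F7, F8, -, -, F11⟩ := hF hD I Z
  obtain ⟨D1, D2, -, D4, -, -⟩ := hD I Z
  have hb := hI.1
  have hPb := hI.2.1
  have hP : ∀ i, Z.tw b i ^ (2 ^ a) = 1 := by
    intro i
    rw [← tw_pow Z F3 F4, hPb, F4]
  have ht0 : ∀ i, Z.tw b i ≠ 0 := by
    intro i h
    have h1 := F7 b i
    rw [h, mul_zero] at h1
    exact zero_ne_one h1
  have s1 := step1 Z F6 F11 b hb y hY.yu hY.al
  obtain ⟨k1, hk1, hxi⟩ := step2 Z F1 F3 F4 F8 a b y (by omega) hI hY.yu hP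
  have hx2 : Z.tw b k1 ^ 2 ≠ 1 := by
    intro h
    have h1 : 2 ^ (a - 1) = 2 * 2 ^ (a - 2) := by
      rw [← pow_succ']
      congr 1
      omega
    rw [h1, pow_mul, h, one_pow] at hxi
    norm_num at hxi
  obtain ⟨R1, R2⟩ := hR a I (Z.tw b) (fun i => y i ^ 2) (2 * y Z.o) ha hP s1
  obtain ⟨R3, -⟩ := hR a I (Z.tw b) (fun i => y i * Z.d i) 2 ha hP (by
    rw [show ((2 : ℤ) : ℂ) = 2 by norm_num, ← hY.dim]
    refine Finset.sum_congr rfl fun i _ => ?_
    push_cast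
    ring)
  have hex : ∃ p, y p ≠ 0 ∧ (Z.tw b p = 1 ∨ Z.tw b p = -1) := by
    by_contra hcon
    push Not at hcon
    have h1 : ∑ i, (if Z.tw b i = 1 then y i * (Z.d i : ℤ) else 0) = 0 := by
      refine Finset.sum_eq_zero fun i _ => ?_
      split_ifs with h
      · by_cases hy : y i = 0
        · rw [hy, zero_mul]
        · exact absurd h (hcon i hy).1
      · rfl
    have h2 : ∑ i, (if Z.tw b i = -1 then y i * (Z.d i : ℤ) else 0) = 0 := by
      refine Finset.sum_eq_zero fun i _ => ?_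
      split_ifs with h
      · by_cases hy : y i = 0
        · rw [hy, zero_mul]
        · exact absurd h (hcon i hy).2
      · rfl
    rw [h1, h2] at R3
    norm_num at R3
  obtain ⟨k2, p, q, h12, h1p, h1q, h2p, h2q, hpq, htk2, htp, htq, e1, e2, e3, e4, hz⟩ :=
    comb y (Z.tw b) hY.sq k1 hk1 hx2 ht0 R2 hex
  have n1 : Z.tw b k1 ≠ 1 := fun h => hx2 (by rw [h]; norm_num)
  have n2 : Z.tw b k1 ≠ -1 := fun h => hx2 (by rw [h]; norm_num)
  have n3 : Z.tw b k2 ≠ 1 := fun h => n2 (by rw [← h, htk2, neg_neg])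
  have n4 : Z.tw b k2 ≠ -1 := fun h => n1 (by rw [htk2] at h; exact neg_inj.mp h)
  have hz1 : ∀ x : ℂ, ∀ i, i ≠ k1 → i ≠ k2 → i ≠ p → i ≠ q →
      (if Z.tw b i = x then y i ^ 2 else 0) = 0 := by
    intro x i hi1 hi2 hi3 hi4
    rw [hz i hi1 hi2 hi3 hi4]
    simp
  have hz2 : ∀ x : ℂ, ∀ i, i ≠ k1 → i ≠ k2 → i ≠ p → i ≠ q →
      (if Z.tw b i = x then y i * (Z.d i : ℤ) else 0) = 0 := by
    intro x i hi1 hi2 hi3 hi4
    rw [hz i hi1 hi2 hi3 hi4]
    simp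
  rw [sum4 _ k1 k2 p q h12 h1p h1q h2p h2q hpq (hz1 _),
    sum4 _ k1 k2 p q h12 h1p h1q h2p h2q hpq (hz1 _),
    if_neg n1, if_neg n2, if_neg n3, if_neg n4, e3, e4] at R1
  rw [sum4 _ k1 k2 p q h12 h1p h1q h2p h2q hpq (hz2 _),
    sum4 _ k1 k2 p q h12 h1p h1q h2p h2q hpq (hz2 _),
    if_neg n1, if_neg n2, if_neg n3, if_neg n4] at R3
  have pm : ∀ m : ℤ, m ^ 2 = 1 → m = 1 ∨ m = -1 := fun m hm =>
    mul_self_eq_one_iff.mp (by rw [← sq]; exact hm)
  have nz : ∀ m : ℤ, m ^ 2 = 1 → m ≠ 0 := by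
    intro m hm h
    rw [h] at hm
    norm_num at hm
  have one_ne : (1 : ℂ) ≠ -1 := by norm_num
  have ne_one : (-1 : ℂ) ≠ 1 := by norm_num
  have ho1 : Z.o ≠ k1 := fun h => n1 (by rw [← h, F6])
  have ho2 : Z.o ≠ k2 := fun h => n3 (by rw [← h, F6])
  have hk2x : Z.tw b k2 ^ 2 ≠ 1 := by rw [htk2, neg_sq]; exact hx2
  rcases htp with htp | htp <;> rcases htq with htq | htq
  · -- both values are one
    left
    simp only [htp, htq, if_true, if_neg one_ne] at R1 R3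
    have hyo : y Z.o = 1 := by omega
    have hopq : Z.o = p ∨ Z.o = q := by
      by_contra hcon
      push Not at hcon
      have h1 := hz Z.o ho1 ho2 hcon.1 hcon.2
      omega
    rcases hopq with ho | ho
    · have hd1 : Z.d p = 1 := by rw [← ho, Z.d_o]
      have hy1 : y p = 1 := by rw [← ho, hyo]
      rw [hy1, hd1] at R3
      have h1 : y q * (Z.d q : ℤ) = 1 := by push_cast at R3; omega
      have h2 : (Z.d q : ℤ) = 1 := Int.eq_one_of_mul_eq_one_left (by positivity) h1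
      refine case5 Z F3 F5 F6 D1 D2 D4 b y hY k1 k2 q (fun h => hpq (by rw [← ho, ← h]))
        ?_ n1 n3 htq (nz _ e4) (by exact_mod_cast h2)
      intro i hi1 hi2 hi3 hi4
      exact hz i hi1 hi2 (by rw [← ho]; exact hi4) hi3
    · have hd1 : Z.d q = 1 := by rw [← ho, Z.d_o]
      have hy1 : y q = 1 := by rw [← ho, hyo]
      rw [hy1, hd1] at R3
      have h1 : y p * (Z.d p : ℤ) = 1 := by push_cast at R3; omega
      have h2 : (Z.d p : ℤ) = 1 := Int.eq_one_of_mul_eq_one_left (by positivity) h1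
      refine case5 Z F3 F5 F6 D1 D2 D4 b y hY k1 k2 p (fun h => hpq (by rw [← ho, ← h]))
        ?_ n1 n3 htp (nz _ e3) (by exact_mod_cast h2)
      intro i hi1 hi2 hi3 hi4
      exact hz i hi1 hi2 hi3 (by rw [← ho]; exact hi4)
  · right
    simp only [htp, htq, if_true, if_neg one_ne, if_neg ne_one] at R1
    refine ⟨p, q, k1, by omega, hpq, pm _ e3, pm _ e4, htp, htq, hx2, ?_⟩
    intro i hi
    by_contra hcon
    push Not at hcon
    refine hi (hz i ?_ ?_ hcon.1 hcon.2.1)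
    · intro h; rw [h] at hcon; exact hx2 hcon.2.2
    · intro h; rw [h] at hcon; exact hk2x hcon.2.2
  · right
    simp only [htp, htq, if_true, if_neg one_ne, if_neg ne_one] at R1
    refine ⟨q, p, k1, by omega, hpq.symm, pm _ e4, pm _ e3, htq, htp, hx2, ?_⟩
    intro i hi
    by_contra hcon
    push Not at hcon
    refine hi (hz i ?_ ?_ hcon.2.1 hcon.1)
    · intro h; rw [h] at hcon; exact hx2 hcon.2.2
    · intro h; rw [h] at hcon; exact hk2x hcon.2.2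
  · exfalso
    simp only [htp, htq, if_true, if_neg ne_one] at R1
    have hyo : y Z.o = -1 := by omega
    have h1 := hz Z.o ho1 ho2 (fun h => ne_one (by rw [← htp, ← h, F6]))
      (fun h => ne_one (by rw [← htq, ← h, F6]))
    omega

end Pool.Agent.Helper67.YF
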